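import Pool.Agent.Helper88.CW.Eth
import Pool.Agent.Helper88.CW.Pad

open Filter Asymptotics
open Pool.Agent.Helper88.CW Pool.Agent.Helper88.CW.KExpr

namespace Pool.Agent.Results.MP_c012ac_lc.TightBounds

/-- The subgraph component polynomial can be computed from a `k`-expression in time
`2 ^ O(k log k) * N ^ O(1)`.  If it can be computed from (linear) `k`-expressions in time
`T k * N ^ O(1)`, then 3-SAT with `n` variables can be decided in time
`T (O(n / log n)) * N ^ O(1)`.  Under the exponential time hypothesis, no algorithm has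
`log T = o(k log k)`; in particular no algorithm has simply exponential constants. -/
theorem result :
    (∃ C : ℕ, QTime (fun k => 2 ^ (C * (k * (Nat.log 2 k + 1))))) ∧
    (∀ T : ℕ → ℕ, Monotone T → QTimeOn IsLin T →
      SatTime (fun n => T (18 * (n / (Nat.log 2 n + 1) + 1)))) ∧
    (ETH → ∀ T : ℕ → ℕ,
      (fun k : ℕ => Real.log (T k)) =o[atTop] (fun k : ℕ => (k : ℝ) * Real.log k) →
        ¬ QTimeOn IsLin T) ∧
    (ETH → ∀ C : ℕ, ¬ QTime (fun k => 2 ^ (C * k))) :=
  ⟨qTime_upper, fun _ hT hQ => satTime_of_qTime hT hQ, fun hE T hT => no_littleO hE T hT,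
    fun hE C => no_simply_exponential hE C⟩

end Pool.Agent.Results.MP_c012ac_lc.TightBounds
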